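import Mathlib
import Pool.Agent.Lib.helper1.Pak

set_option autoImplicit false
set_option linter.unusedSectionVars false

open Finset Filter Topology Matrix

namespace Pool.Agent.Results.MP_ec2323_pr.NoCutoff

section Defs
variable {V : Type} [Fintype V] [DecidableEq V] (G : SimpleGraph V) [DecidableRel G.Adj]

/-- Jump matrix: move to a uniformly chosen neighbour. -/
noncomputable def K : Matrix V V ℝ := fun x y => G.adjMatrix ℝ x y / (G.degree x : ℝ)

/-- Law at time `t` of the rate one continuous time walk: a Poisson(`t`) number of jumps. -/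
noncomputable def heat (t : ℝ) (x y : V) : ℝ :=
  ∑' k : ℕ, Real.exp (-t) * t ^ k / (k.factorial : ℝ) * (K G ^ k) x y

/-- Stationary distribution. -/
noncomputable def stat (x : V) : ℝ := (G.degree x : ℝ) / (2 * (G.edgeFinset.card : ℝ))

/-- Total variation distance to stationarity from `x` at time `t`. -/
noncomputable def d (x : V) (t : ℝ) : ℝ := (1 / 2) * ∑ y : V, |heat G t x y - stat G y|

/-- Mixing time from `x`. -/
noncomputable def tau (x : V) : ℝ := sInf {t : ℝ | 0 ≤ t ∧ d G x t ≤ 1 / 4}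

/-- Spectral gap of the generator `K - 1`: least nonzero eigenvalue of `1 - K`. -/
noncomputable def gap : ℝ :=
  sInf {l : ℝ | l ≠ 0 ∧ ∃ f : V → ℝ, f ≠ 0 ∧ (1 - K G) *ᵥ f = l • f}

end Defs

open Pool.Agent.Lib.helper1.Pak

lemma hs_exp (x : ℝ) : HasSum (fun k : ℕ => x ^ k / (k.factorial : ℝ)) (Real.exp x) := by
  rw [Real.exp_eq_exp_ℝ]
  exact NormedSpace.expSeries_div_hasSum_exp x

lemma hs_geo (t a : ℝ) : HasSum (fun k : ℕ => Real.exp (-t) * t ^ k / (k.factorial : ℝ) * a ^ k)
    (Real.exp (-(t * (1 - a)))) := by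
  have := (hs_exp (t * a)).mul_left (Real.exp (-t))
  rw [← Real.exp_add, show -t + t * a = -(t * (1 - a)) by ring] at this
  have e : (fun k : ℕ => Real.exp (-t) * t ^ k / (k.factorial : ℝ) * a ^ k) =
      fun k : ℕ => Real.exp (-t) * ((t * a) ^ k / (k.factorial : ℝ)) := by
    funext k; rw [mul_pow]; ring
  rw [e]; exact this

lemma hs_one (t : ℝ) : HasSum (fun k : ℕ => Real.exp (-t) * t ^ k / (k.factorial : ℝ)) 1 := by
  simpa using hs_geo t 1

lemma hs_mean (t : ℝ) :
    HasSum (fun k : ℕ => Real.exp (-t) * t ^ k / (k.factorial : ℝ) * k) t := by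
  rw [← hasSum_nat_add_iff' 1]
  simp only [range_one, sum_singleton, Nat.cast_zero, mul_zero, sub_zero]
  have := (hs_one t).mul_left t
  rw [mul_one] at this
  have e : (fun k : ℕ => Real.exp (-t) * t ^ (k + 1) / ((k + 1).factorial : ℝ) * ((k + 1 : ℕ) : ℝ))
      = fun k : ℕ => t * (Real.exp (-t) * t ^ k / (k.factorial : ℝ)) := by
    funext k
    rw [Nat.factorial_succ]; push_cast
    have : (k.factorial : ℝ) ≠ 0 := by positivity
    field_simp; ring
  rw [e]; exact this

section
variable {G : Type} [AddCommGroup G] [Fintype G] [DecidableEq G] {N : ℕ} {Z : Finset G}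

lemma K_eq (h : Good N Z) : K (cay Z h.symm h.zero) = trans Z := by
  ext x y
  simp only [K, trans_eq h.symm, cay_degree, SimpleGraph.adjMatrix_apply, cay_adj]

lemma stat_eq (h : Good N Z) (y : G) :
    stat (cay Z h.symm h.zero) y = 1 / (Fintype.card G : ℝ) := by
  have h1 := (cay Z h.symm h.zero).sum_degrees_eq_twice_card_edges
  simp only [cay_degree, sum_const, card_univ, smul_eq_mul] at h1
  have h2 : (2 * ((cay Z h.symm h.zero).edgeFinset.card : ℝ)) = Fintype.card G * Z.card := by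
    exact_mod_cast h1.symm
  have h3 : (Z.card : ℝ) ≠ 0 := by exact_mod_cast h.ne.card_pos.ne'
  have hc : (0 : ℝ) < Fintype.card G := by exact_mod_cast Fintype.card_pos
  rw [stat, h2, cay_degree]; field_simp

lemma hs_heat (h : Good N Z) (t : ℝ) (ht : 0 ≤ t) (x y : G) :
    HasSum (fun k : ℕ => Real.exp (-t) * t ^ k / (k.factorial : ℝ) * (trans Z ^ k) x y)
      (heat (cay Z h.symm h.zero) t x y) := by
  rw [heat, K_eq h]
  refine Summable.hasSum ?_
  have hD := fun k => (trans_DS h.symm h.ne).pow k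
  refine Summable.of_nonneg_of_le (fun k => mul_nonneg (by positivity) ((hD k).nn _ _))
    (fun k => ?_) (hs_one t).summable
  refine mul_le_of_le_one_right (by positivity) ?_
  rw [← (hD k).row x]
  exact Finset.single_le_sum (f := fun y => (trans Z ^ k) x y) (fun i _ => (hD k).nn _ _)
    (mem_univ y)

lemma hs_set (h : Good N Z) (t : ℝ) (ht : 0 ≤ t) (x : G) (W : Finset G) :
    HasSum (fun k : ℕ => Real.exp (-t) * t ^ k / (k.factorial : ℝ) * ∑ y ∈ W, (trans Z ^ k) x y)
      (∑ y ∈ W, heat (cay Z h.symm h.zero) t x y) := by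
  simp only [Finset.mul_sum]
  exact hasSum_sum fun y _ => hs_heat h t ht x y

lemma heat_row (h : Good N Z) (t : ℝ) (ht : 0 ≤ t) (x : G) :
    ∑ y, heat (cay Z h.symm h.zero) t x y = 1 := by
  have h1 := hs_set h t ht x univ
  simp only [((trans_DS h.symm h.ne).pow _).row x, mul_one] at h1
  exact h1.unique (hs_one t)

lemma d_low (h : Good N Z) (t : ℝ) (ht : 0 ≤ t) :
    99 / 100 - t / (20 * ((N : ℝ) + 1)) ≤ d (cay Z h.symm h.zero) 0 t := by
  obtain ⟨W, h0, h1, h2, h3⟩ := h.nest
  have hN : (0 : ℝ) ≤ N := by positivity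
  have ha : (0 : ℝ) ≤ 1 - 1 / (20 * ((N : ℝ) + 1)) := by
    rw [sub_nonneg, div_le_one (by positivity)]; linarith
  have hmono : Monotone W := monotone_nat_of_le_succ h1
  have hD := fun k => (trans_DS h.symm h.ne).pow k
  have h4 : ∀ k : ℕ, 1 - (k : ℝ) / (20 * ((N : ℝ) + 1)) ≤
      ∑ y ∈ W (20 * N + 19), (trans Z ^ k) 0 y := by
    intro k
    by_cases hk : k ≤ 20 * N + 19
    · have h5 := mass_ge (trans_DS h.symm h.ne) _ ha W 0 h0 h2 k
      have h7 : 1 - (k : ℝ) / (20 * ((N : ℝ) + 1)) ≤ (1 - 1 / (20 * ((N : ℝ) + 1))) ^ k := by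
        calc 1 - (k : ℝ) / (20 * ((N : ℝ) + 1)) = 1 + k * (-(1 / (20 * ((N : ℝ) + 1)))) := by
              ring
          _ ≤ (1 + -(1 / (20 * ((N : ℝ) + 1)))) ^ k := one_add_mul_le_pow (by linarith) k
          _ = _ := by rw [← sub_eq_add_neg]
      exact h7.trans (h5.trans (Finset.sum_le_sum_of_subset_of_nonneg (hmono hk)
        fun y _ _ => (hD k).nn _ _))
    · have h5 : 20 * N + 20 ≤ k := by omega
      have h6 : 20 * (N : ℝ) + 20 ≤ k := by exact_mod_cast h5
      have h7 : 1 ≤ (k : ℝ) / (20 * ((N : ℝ) + 1)) := by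
        rw [le_div_iff₀ (by positivity)]; linarith
      have h8 : 0 ≤ ∑ y ∈ W (20 * N + 19), (trans Z ^ k) 0 y :=
        Finset.sum_nonneg fun y _ => (hD k).nn _ _
      linarith
  have h5 := (hs_one t).sub ((hs_mean t).div_const (20 * ((N : ℝ) + 1)))
  have h6 := hasSum_le (fun k => ?_) h5 (hs_set h t ht 0 (W (20 * N + 19)))
  · have h7 := test_le (fun y => heat (cay Z h.symm h.zero) t 0 y) (heat_row h t ht 0)
      (W (20 * N + 19))
    have h8 := h3 (20 * N + 19) (by omega)
    simp only [d, stat_eq h]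
    linarith
  · have := mul_le_mul_of_nonneg_left (h4 k)
      (show 0 ≤ Real.exp (-t) * t ^ k / (k.factorial : ℝ) by positivity)
    refine le_trans (le_of_eq ?_) this
    ring

lemma d_up (h : Good N Z) (t : ℝ) (ht : 0 ≤ t) (x : G) :
    d (cay Z h.symm h.zero) x t ≤ (800 / 781) / (1 + t * (19 / (800 * ((N : ℝ) + 1)))) := by
  have hN : (0 : ℝ) ≤ N := by positivity
  have hc : (0 : ℝ) < Fintype.card G := by exact_mod_cast Fintype.card_pos
  set η : ℝ := 19 / (800 * ((N : ℝ) + 1)) with hη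
  have hη0 : 0 ≤ η := by positivity
  have hη1 : η ≤ 19 / 800 := by
    rw [hη, div_le_div_iff₀ (by positivity) (by positivity)]; nlinarith
  have hD := trans_DS h.symm h.ne
  have h1 : ∀ s : ℕ, ∀ y, (1 - (1 - η) ^ (2 * s)) / (Fintype.card G : ℝ) ≤
      (trans Z ^ (2 * s)) x y := by
    intro s y
    have h2 := doeblin (hD.pow 2) _ h.sq s x y
    rw [← pow_mul] at h2
    refine le_trans ?_ h2
    have h3 : 19 / (400 * ((N : ℝ) + 1)) = 2 * η := by rw [hη]; field_simp; ring
    rw [h3, pow_mul]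
    gcongr
    · linarith
    · nlinarith [sq_nonneg η]
  have h2 : ∀ k : ℕ, ∀ y, (1 - (800 / 781) * (1 - η) ^ k) / (Fintype.card G : ℝ) ≤
      (trans Z ^ k) x y := by
    intro k y
    have hp : ∀ m : ℕ, 0 ≤ (1 - η) ^ m := fun m => pow_nonneg (by linarith) m
    rcases Nat.even_or_odd' k with ⟨s, rfl | rfl⟩
    · refine le_trans ?_ (h1 s y)
      gcongr
      linarith [hp (2 * s)]
    · refine le_trans ?_ (step_ge hD _ _ x (h1 s) y)
      gcongr
      rw [pow_succ]
      nlinarith [hp (2 * s)]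
  have h3 : ∀ y, (1 - (800 / 781) * Real.exp (-(t * η))) / (Fintype.card G : ℝ) ≤
      heat (cay Z h.symm h.zero) t x y := by
    intro y
    have h4 := ((hs_one t).sub ((hs_geo t (1 - η)).mul_left (800 / 781))).div_const
      (Fintype.card G : ℝ)
    rw [sub_sub_cancel] at h4
    refine hasSum_le (fun k => ?_) h4 (hs_heat h t ht x y)
    have := mul_le_mul_of_nonneg_left (h2 k y)
      (show 0 ≤ Real.exp (-t) * t ^ k / (k.factorial : ℝ) by positivity)
    refine le_trans (le_of_eq ?_) this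
    ring
  have h5 := tv_le_sep _ (heat_row h t ht x) _ (by positivity) h3
  have h6 : Real.exp (-(t * η)) ≤ 1 / (1 + t * η) := by
    rw [Real.exp_neg, one_div]
    exact inv_anti₀ (by positivity) (by linarith [Real.add_one_le_exp (t * η)])
  simp only [d, stat_eq h]
  refine h5.trans ?_
  rw [div_eq_mul_one_div (800 / 781 : ℝ)]
  gcongr

lemma d_transl (h : Good N Z) (x : G) (t : ℝ) :
    d (cay Z h.symm h.zero) x t = d (cay Z h.symm h.zero) 0 t := by
  simp only [d, stat_eq h, heat, K_eq h]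
  rw [← Equiv.sum_comp (Equiv.addRight x)]
  have h1 : ∀ k y, (trans Z ^ k) x (y + x) = (trans Z ^ k) 0 y := by
    intro k y
    have := pow_transl (trans Z) (fun a x y => by simp [trans_eq h.symm]) k x 0 y
    rwa [zero_add] at this
  simp only [Equiv.coe_addRight, h1]

lemma gap_ge (h : Good N Z) : 1 / 2 ≤ gap (cay Z h.symm h.zero) := by
  have hZ : (0 : ℝ) < Z.card := by exact_mod_cast h.ne.card_pos
  refine le_csInf ?_ ?_
  · have : Nontrivial G := Fintype.one_lt_card_iff_nontrivial.1 (by have := h.big; omega)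
    obtain ⟨a, ha⟩ := exists_ne (0 : G)
    obtain ⟨χ, hχ⟩ := AddChar.exists_apply_ne_zero.2 ha
    have hχ0 : χ ≠ 0 := by rintro rfl; simp at hχ
    have h1 := h.chr χ hχ0
    have h2 : ∑ z ∈ Z, (χ z).im = 0 := by
      have h3 : ∑ z ∈ Z, (χ z).im = ∑ z ∈ Z, (χ (-z)).im :=
        (Finset.sum_bij (fun z _ => -z) (fun z hz => h.symm z hz)
          (fun a _ b _ h => neg_injective h) (fun b hb => ⟨-b, h.symm b hb, neg_neg b⟩)
          (fun _ _ => rfl)).symm
      simp only [AddChar.map_neg_eq_conj, Complex.conj_im, Finset.sum_neg_distrib] at h3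
      linarith
    refine ⟨1 - (∑ z ∈ Z, χ z).re / Z.card, ?_, fun x => (χ x).re, ?_, ?_⟩
    · have : (∑ z ∈ Z, χ z).re / Z.card ≤ 1 / 2 := by rw [div_le_iff₀ hZ]; exact h1
      linarith
    · intro h0
      have := congrFun h0 0
      simp at this
    · funext x
      rw [K_eq h, Matrix.sub_mulVec, Matrix.one_mulVec]
      simp only [Matrix.mulVec, dotProduct, Pi.sub_apply, Pi.smul_apply, smul_eq_mul,
        sum_trans_mul h.symm, AddChar.map_add_eq_mul, Complex.mul_re, Finset.sum_sub_distrib,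
        ← Finset.mul_sum, h2, Complex.re_sum]
      ring
  · rintro l ⟨hl, f, hf, he⟩
    rw [K_eq h, Matrix.sub_mulVec, Matrix.one_mulVec] at he
    have h1 : trans Z *ᵥ f = (1 - l) • f := by
      rw [sub_smul, one_smul, ← he]; abel
    have := h.eig f hf (1 - l) (fun h2 => hl (by linarith)) h1
    linarith

lemma tau_ge (h : Good N Z) : 74 / 5 * ((N : ℝ) + 1) ≤ tau (cay Z h.symm h.zero) 0 := by
  have hN : (0 : ℝ) ≤ N := by positivity
  refine le_csInf ⟨400 * ((N : ℝ) + 1), by positivity, ?_⟩ ?_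
  · refine (d_up h _ (by positivity) 0).trans ?_
    rw [show 400 * ((N : ℝ) + 1) * (19 / (800 * ((N : ℝ) + 1))) = 19 / 2 by field_simp; ring]
    norm_num
  · rintro t ⟨ht, hd⟩
    have h1 := d_low h t ht
    have h2 : 74 / 100 ≤ t / (20 * ((N : ℝ) + 1)) := by linarith
    rw [le_div_iff₀ (by positivity)] at h2
    linarith

lemma d_small (h : Good N Z) (x : G) :
    d (cay Z h.symm h.zero) x ((1 - 1 / 10) * tau (cay Z h.symm h.zero) 0) ≤ 1 - 1 / 10 := by
  have hN : (0 : ℝ) ≤ N := by positivity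
  have h1 := tau_ge h
  set τ := tau (cay Z h.symm h.zero) 0
  have h0 : 0 ≤ (1 - 1 / 10) * τ := by nlinarith
  refine (d_up h _ h0 x).trans ?_
  have h2 : 3 / 10 ≤ (1 - 1 / 10) * τ * (19 / (800 * ((N : ℝ) + 1))) := by
    rw [← mul_div_assoc, le_div_iff₀ (by positivity)]; nlinarith
  rw [div_le_iff₀ (by linarith)]
  linarith

end

open Classical in
theorem result :
    ∃ (V : ℕ → Type) (_ : ∀ n, Fintype (V n)) (_ : ∀ n, DecidableEq (V n))
      (G : ∀ n, SimpleGraph (V n)) (_ : ∀ n, DecidableRel (G n).Adj) (τ : ℕ → ℝ),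
      (∀ n, (G n).Connected) ∧ Tendsto (fun n => Fintype.card (V n)) atTop atTop ∧
      (∀ n x, tau (G n) x = τ n) ∧
      Tendsto (fun n => τ n / (1 / gap (G n))) atTop atTop ∧
      ∃ ε ∈ Set.Ioo (0 : ℝ) 1, ¬ Tendsto
        (fun n => ∑ x ∈ univ.filter (fun x => 1 - ε < d (G n) x ((1 - ε) * τ n)), stat (G n) x)
        atTop (𝓝 1) := by
  choose G i1 i2 i3 Z h using package
  refine ⟨G, i2, i3, fun n => cay (Z n) (h n).symm (h n).zero, fun n => inferInstance,
    fun n => tau (cay (Z n) (h n).symm (h n).zero) 0,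
    fun n => cay_connected (h n), ?_, ?_, ?_, 1 / 10, ⟨by norm_num, by norm_num⟩, ?_⟩
  · exact tendsto_atTop_mono (fun n => by have := (h n).big; simp only [id]; omega) tendsto_id
  · intro n x
    simp only [tau, d_transl (h n) x]
  · refine tendsto_atTop_mono (fun n => ?_) tendsto_natCast_atTop_atTop
    have h1 := tau_ge (h n)
    have h2 := gap_ge (h n)
    have hN : (0 : ℝ) ≤ n := by positivity
    rw [div_div_eq_mul_div, div_one]
    nlinarith
  · intro hc
    have h0 : ∀ n, ∑ x ∈ univ.filter (fun x => 1 - (1 / 10 : ℝ) <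
        d (cay (Z n) (h n).symm (h n).zero) x
          ((1 - 1 / 10) * tau (cay (Z n) (h n).symm (h n).zero) 0)),
        stat (cay (Z n) (h n).symm (h n).zero) x = 0 := by
      intro n
      rw [Finset.filter_false_of_mem fun x _ => not_lt.2 (d_small (h n) x)]
      simp
    simp only [h0] at hc
    have := tendsto_nhds_unique hc tendsto_const_nhds
    norm_num at this

end Pool.Agent.Results.MP_ec2323_pr.NoCutoff
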